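import Pool.Agent.H33.OS.FourMain

/-!
# MP_f82f05_an: operator spaces with `d_SK(E) = d_SK(E*) = 1` at distance two from `ℓ₂ᴺ`

For every `N ≥ 4` there is an `N`-dimensional operator space `E` with `d_SK(E) = d_SK(E*) = 1`
whose Banach-Mazur distance to the Hilbert space `ℓ₂ᴺ` is `2`. In particular `c* ≥ 2`.
-/

namespace Pool.Agent.Results.MP_f82f05_an.LowerBoundTwo

open Pool.Agent.H33.OS Pool.Agent.H33.OS.Pub

theorem result (N : ℕ) (hN : 4 ≤ N) :
    ∃ X : OpSpace N, X.sk = 1 ∧ X.skDual = 1 ∧ X.dist = 2 :=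
  pub_two N hN

end Pool.Agent.Results.MP_f82f05_an.LowerBoundTwo
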